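import Mathlib

/-!
# Project BL (Blumenthal's conjecture on functions with equal maximum modulus): statements
-/

set_option autoImplicit false

open Polynomial Filter Topology

namespace Pool.Agent.Y247.BL

/-- the maximum modulus `M(r, f)` of a polynomial -/
noncomputable def MM (f : ℂ[X]) (r : ℝ) : ℝ :=
  sSup ((fun z : ℂ => ‖f.eval z‖) '' Metric.sphere (0 : ℂ) r)

/-- the polynomial with conjugate coefficients, `f*(z) = conj (f (conj z))` -/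
noncomputable def star' (f : ℂ[X]) : ℂ[X] := f.map (starRingEnd ℂ)

/-- `Z` is the germ at `0` of the inverse of `z f'(z) / f(z)` with `Z(0) = 0` -/
def IsInv (f : ℂ[X]) (Z : ℂ → ℂ) : Prop :=
  AnalyticAt ℂ Z 0 ∧ Z 0 = 0 ∧
    ∀ᶠ s in 𝓝 (0 : ℂ), Z s * f.derivative.eval (Z s) = s * f.eval (Z s)

/-- Job BL-GERM (a): equal maximum modulus near `0`: the first two coefficients of `g` do not
vanish either. -/
def StCoeff : Prop :=
  ∀ f g : ℂ[X], f.coeff 0 ≠ 0 → f.coeff 1 ≠ 0 → ∀ ε : ℝ, 0 < ε →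
    (∀ r : ℝ, 0 < r → r < ε → MM f r = MM g r) → g.coeff 0 ≠ 0 ∧ g.coeff 1 ≠ 0

/-- Job BL-GERM (b): equal maximum modulus near `0` implies `|Z(s)| = |W(s)|` for small `s > 0`. -/
def StGerm : Prop :=
  ∀ f g : ℂ[X], f.coeff 0 ≠ 0 → f.coeff 1 ≠ 0 → g.coeff 0 ≠ 0 → g.coeff 1 ≠ 0 →
    ∀ ε : ℝ, 0 < ε → (∀ r : ℝ, 0 < r → r < ε → MM f r = MM g r) →
    ∀ Z W : ℂ → ℂ, IsInv f Z → IsInv g W →
      ∃ δ : ℝ, 0 < δ ∧ ∀ s : ℝ, 0 < s → s < δ → ‖Z s‖ = ‖W s‖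

/-- Job BL-ELIM: if `z f'(z)/f(z)` is invariant under `z ↦ conj (ι z)`,
`ι z = -(c / conj c) z / (1 + c z)`, then `f'(0) / f(0)` is a real multiple of `c`. -/
def StElim : Prop :=
  ∀ (f : ℂ[X]) (c : ℂ), f.coeff 0 ≠ 0 → c ≠ 0 →
    (∀ᶠ z in 𝓝 (0 : ℂ),
      (-(c / starRingEnd ℂ c) * z / (1 + c * z)) *
          (star' f).derivative.eval (-(c / starRingEnd ℂ c) * z / (1 + c * z)) * f.eval z =
        z * f.derivative.eval z * (star' f).eval (-(c / starRingEnd ℂ c) * z / (1 + c * z))) →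
    ∃ t : ℝ, f.coeff 1 = t * c * f.coeff 0

end Pool.Agent.Y247.BL
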